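import Pool.Agent.TAU.Four
import Pool.Agent.FS84.Kaz

/-!
A heavy component of a vector under a finite central group of isometries.
-/

set_option autoImplicit false
open Finset Pool.Agent.H51K Pool.Agent.TAU

namespace Pool.Agent.TAU12

theorem exists_heavy {ι : Type} [Fintype ι] (e n : ι → ℝ) (E N : ℝ) (hE : ∑ i, e i = E)
    (hN : ∑ i, n i = N) (hn : ∀ i, 0 ≤ n i) (hz : ∀ i, n i = 0 → e i = 0) (hN0 : 0 < N) :
    ∃ i, 0 < n i ∧ e i * N ≤ E * n i := by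
  by_contra hcon
  push Not at hcon
  have h1 : ∀ i, E * n i ≤ e i * N := by
    intro i
    rcases (hn i).eq_or_lt with h | h
    · rw [← h, hz i h.symm, mul_zero, zero_mul]
    · exact (hcon i h).le
  obtain ⟨j, -, hj⟩ : ∃ j ∈ (univ : Finset ι), n j ≠ 0 := by
    by_contra h
    push Not at h
    have : ∑ i, n i = 0 := Finset.sum_eq_zero h
    linarith
  have h2 : ∑ i, E * n i < ∑ i, e i * N :=
    Finset.sum_lt_sum (fun i _ => h1 i) ⟨j, mem_univ j, hcon j ((hn j).lt_of_ne hj.symm)⟩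
  rw [← Finset.mul_sum, ← Finset.sum_mul, hE, hN] at h2
  exact lt_irrefl _ h2

theorem component {G H : Type} [Group G] [NormedAddCommGroup H] [InnerProductSpace ℂ H]
    [CompleteSpace H] (ρ : G →* (H ≃ₗᵢ[ℂ] H)) (hfin : (ρ.ker).FiniteIndex) (Z : Set G)
    (hZ : ∀ c ∈ Z, ∀ g, ρ (c * g) = ρ (g * c)) (F : Finset G) (v : H) (hv : v ∈ (invS ρ)ᗮ)
    (hv0 : v ≠ 0) : ∃ h : H, h ≠ 0 ∧ h ∈ (invS ρ)ᗮ ∧
      (∑ a ∈ F, ‖ρ a h - h‖ ^ 2) * ‖v‖ ^ 2 ≤ (∑ a ∈ F, ‖ρ a v - v‖ ^ 2) * ‖h‖ ^ 2 ∧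
      ∀ c ∈ Z, ∃ z : ℂ, ‖z‖ = 1 ∧ ρ c h = z • h := by
  classical
  have hrange : Finite ρ.range := by
    have : Finite (G ⧸ ρ.ker) := Subgroup.finite_quotient_of_finiteIndex
    exact Finite.of_equiv _ (QuotientGroup.quotientKerEquivRange ρ).toEquiv
  set S : Set (H ≃ₗᵢ[ℂ] H) := ρ '' Z with hS
  have hcen : Subgroup.closure S ≤ Subgroup.centralizer (Set.range ρ) := by
    rw [Subgroup.closure_le]
    rintro _ ⟨c, hc, rfl⟩
    rw [SetLike.mem_coe, Subgroup.mem_centralizer_iff]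
    rintro _ ⟨g, rfl⟩
    rw [← map_mul, ← map_mul, hZ c hc g]
  have hle : Subgroup.closure S ≤ ρ.range := by
    rw [Subgroup.closure_le]
    rintro _ ⟨c, _, rfl⟩
    exact ⟨c, rfl⟩
  have hcomm : ∀ x ∈ S, ∀ y ∈ S, x * y = y * x := by
    rintro _ ⟨c, hc, rfl⟩ _ ⟨c', _, rfl⟩
    rw [← map_mul, ← map_mul, hZ c hc c']
  have hfinB : Finite (Subgroup.closure S) :=
    Finite.of_injective (Subgroup.inclusion hle) (Subgroup.inclusion_injective hle)
  letI iB : CommGroup (Subgroup.closure S) :=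
    { (inferInstance : Group (Subgroup.closure S)) with
      mul_comm := by
        intro x y
        apply Subtype.ext
        obtain ⟨g, hg⟩ := hle y.2
        have h1 := (Subgroup.mem_centralizer_iff.1 (hcen x.2)) (y : H ≃ₗᵢ[ℂ] H) ⟨g, hg⟩
        exact h1.symm }
  haveI : Fintype (Additive (Subgroup.closure S)) := Fintype.ofFinite _
  let π : Multiplicative (Additive (Subgroup.closure S)) →* (H ≃ₗᵢ[ℂ] H) :=
    { toFun := fun a => ((Additive.toMul (Multiplicative.toAdd a) : Subgroup.closure S) :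
        H ≃ₗᵢ[ℂ] H)
      map_one' := rfl
      map_mul' := fun _ _ => rfl }
  have hπ : ∀ (a : Additive (Subgroup.closure S)), ∃ g, ρ g = π (Multiplicative.ofAdd a) :=
    fun a => hle (Additive.toMul a).2
  have hπc : ∀ (g : G) (a : Additive (Subgroup.closure S)) (w : H),
      ρ g (π (Multiplicative.ofAdd a) w) = π (Multiplicative.ofAdd a) (ρ g w) := by
    intro g a w
    have h1 := (Subgroup.mem_centralizer_iff.1 (hcen (Additive.toMul a).2)) (ρ g) ⟨g, rfl⟩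
    exact congrArg (fun u : H ≃ₗᵢ[ℂ] H => u w) h1
  have hpr : ∀ (g : G) (ψ : AddChar (Additive (Subgroup.closure S)) ℂ),
      ρ g (pr π ψ v) - pr π ψ v = pr π ψ (ρ g v - v) := by
    intro g ψ
    rw [pr_comm π (ρ g) (hπc g) ψ v, pr_sub]
  obtain ⟨ψ, hψ0, hψ⟩ := exists_heavy
    (fun ψ : AddChar (Additive (Subgroup.closure S)) ℂ =>
      ∑ a ∈ F, ‖ρ a (pr π ψ v) - pr π ψ v‖ ^ 2)
    (fun ψ => ‖pr π ψ v‖ ^ 2) (∑ a ∈ F, ‖ρ a v - v‖ ^ 2) (‖v‖ ^ 2)
    (by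
      rw [Finset.sum_comm]
      refine Finset.sum_congr rfl fun a _ => ?_
      simp only [hpr]
      exact pr_norm π _)
    (pr_norm π v) (fun ψ => sq_nonneg _)
    (by
      intro ψ h
      have h1 : pr π ψ v = 0 := norm_eq_zero.1 (pow_eq_zero_iff (two_ne_zero)|>.1 h)
      simp [h1])
    (by positivity)
  refine ⟨pr π ψ v, ?_, ?_, hψ, ?_⟩
  · intro h
    rw [h] at hψ0
    simp at hψ0
  · unfold pr
    refine Submodule.smul_mem _ _ (Submodule.sum_mem _ fun a _ => Submodule.smul_mem _ _ ?_)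
    obtain ⟨g, hg⟩ := hπ a
    rw [← hg]
    exact rho_mem_orth ρ g hv
  · intro c hc
    have hm : ρ c ∈ Subgroup.closure S := Subgroup.subset_closure ⟨c, hc, rfl⟩
    refine ⟨ψ (Additive.ofMul (⟨ρ c, hm⟩ : Subgroup.closure S)), char_norm ψ _, ?_⟩
    exact pr_eigen π ψ v (Additive.ofMul (⟨ρ c, hm⟩ : Subgroup.closure S))

end Pool.Agent.TAU12
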